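import Pool.Agent.MP_2550b6_an.Proof

open Set Metric
open Pool.Agent.MP_2550b6_an

namespace Pool.Agent.Results.MP_2550b6_an.Disproof

/-- For every `n ≥ 3` and every choice of `n` distinct nodes in the disc there are data in `Γ`
such that the Nevanlinna-Pick test data are solvable for every analytic `υ : 𝔻 → Δ`, in
particular all conditions `C_ν` hold, while the `Γ`-interpolation data are not solvable. -/
theorem result (n : ℕ) (hn : 3 ≤ n) (lam : Fin n → ℂ) (hinj : Function.Injective lam)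
    (hlam : ∀ j, lam j ∈ ball (0 : ℂ) 1) :
    ∃ z : Fin n → ℂ × ℂ, (∀ j, z j ∈ Gam) ∧
      (∀ υ : ℂ → ℂ, DifferentiableOn ℂ υ (ball 0 1) → (∀ x ∈ ball (0 : ℂ) 1, ‖υ x‖ ≤ 1) →
        NPSolvable lam (testData lam z υ)) ∧
      (∀ ν : ℕ, CondC ν lam z) ∧ ¬ GammaSolvable lam z :=
  main_result n hn lam hinj hlam

end Pool.Agent.Results.MP_2550b6_an.Disproof
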